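import Mathlib

/-!
# Crossed products of `L^p` operator algebras by finite groups: the two norms
-/

set_option autoImplicit false

open MeasureTheory
open scoped ENNReal

namespace Pool.Agent.X304.Cp

universe u v

section

variable (G : Type u) [Group G] (A : Type v) [NonUnitalNormedRing A] [NormedSpace ℂ A]
  (E : Type u) [NormedAddCommGroup E] [NormedSpace ℂ E]

/-- An isometric action of the group `G` on the Banach algebra `A`: the maps `α g` are
multiplicative, linear and isometric, and `α (g * h) = α g ∘ α h`, `α 1 = id`. -/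
structure IsomAction where
  /-- the automorphisms -/
  map : G → A → A
  map_add : ∀ g a b, map g (a + b) = map g a + map g b
  map_smul : ∀ g (c : ℂ) a, map g (c • a) = c • map g a
  map_mult : ∀ g a b, map g (a * b) = map g a * map g b
  norm_map : ∀ g a, ‖map g a‖ = ‖a‖
  map_one : ∀ a, map 1 a = a
  map_mul : ∀ g h a, map (g * h) a = map g (map h a)

/-- A contractive representation of the Banach algebra `A` on the Banach space `E`: a contractive
homomorphism `a ↦ (x ↦ op a x)` from `A` to the bounded operators on `E`. -/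
structure Rep where
  /-- the homomorphism -/
  op : A → E → E
  add_right : ∀ a x y, op a (x + y) = op a x + op a y
  smul_right : ∀ a (c : ℂ) x, op a (c • x) = c • op a x
  add_left : ∀ a b x, op (a + b) x = op a x + op b x
  smul_left : ∀ (c : ℂ) a x, op (c • a) x = c • op a x
  mul : ∀ a b x, op (a * b) x = op a (op b x)
  contractive : ∀ a x, ‖op a x‖ ≤ ‖a‖ * ‖x‖

/-- A homomorphism from `G` to the group of invertible linear isometries of `E`. -/
structure IsomRep where
  /-- the homomorphism -/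
  op : G → E → E
  add : ∀ g x y, op g (x + y) = op g x + op g y
  smul : ∀ g (c : ℂ) x, op g (c • x) = c • op g x
  norm_op : ∀ g x, ‖op g x‖ = ‖x‖
  one : ∀ x, op 1 x = x
  mul : ∀ g h x, op (g * h) x = op g (op h x)

end

section

variable {G : Type u} [Group G] {A : Type v} [NonUnitalNormedRing A] [NormedSpace ℂ A]
  {E : Type u} [NormedAddCommGroup E] [NormedSpace ℂ E]

/-- A representation is nondegenerate if the span of the vectors `π(a) x` is dense. -/
def Rep.Nondegenerate (π : Rep A E) : Prop :=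
  Dense (Submodule.span ℂ {y : E | ∃ (a : A) (x : E), y = π.op a x} : Set E)

/-- A contractive covariant representation on `E` of the action `α`: a contractive representation
`π` and a homomorphism `v` from `G` to the invertible isometries of `E` with
`v_g π(a) = π(α_g(a)) v_g`. -/
structure CovRep (α : IsomAction G A) (E : Type u) [NormedAddCommGroup E] [NormedSpace ℂ E] where
  /-- the representation of the algebra -/
  rep : Rep A E
  /-- the representation of the group -/
  grp : IsomRep G E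
  covariant : ∀ (g : G) (a : A) (x : E), grp.op g (rep.op a x) = rep.op (α.map g a) (grp.op g x)

/-- The integrated form `a ↦ ∑_g π(a(g)) v_g`. -/
noncomputable def CovRep.integrated [Fintype G] {α : IsomAction G A} (R : CovRep α E) (a : G → A)
    (x : E) : E := ∑ g, R.rep.op (a g) (R.grp.op g x)

/-- The operator norm: the infimum of the `c ≥ 0` with `‖T x‖ ≤ c ‖x‖` for all `x`. -/
noncomputable def opNorm (T : E → E) : ℝ := sInf {c : ℝ | 0 ≤ c ∧ ∀ x, ‖T x‖ ≤ c * ‖x‖}

end

section

variable {G : Type u} [Group G] [Fintype G] {A : Type v} [NonUnitalNormedRing A] [NormedSpace ℂ A]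
  {E : Type u} [NormedAddCommGroup E] [NormedSpace ℂ E]

/-- The space `ℓ^p(G, E)`. -/
def ellp (p : ℝ≥0∞) (G : Type u) (E : Type u) : Type u := PiLp p (fun _ : G => E)

noncomputable instance (p : ℝ≥0∞) [Fact (1 ≤ p)] : NormedAddCommGroup (ellp p G E) :=
  (PiLp.normedAddCommGroup p (fun _ : G => E) : NormedAddCommGroup (PiLp p (fun _ : G => E)))

noncomputable instance (p : ℝ≥0∞) [Fact (1 ≤ p)] : NormedSpace ℂ (ellp p G E) :=
  (PiLp.normedSpace p ℂ (fun _ : G => E) : NormedSpace ℂ (PiLp p (fun _ : G => E)))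

/-- The vector of `ℓ^p(G, E)` with the coordinates `f h`. -/
def mk (p : ℝ≥0∞) (f : G → E) : ellp p G E := WithLp.toLp p f

/-- The coordinates of a vector of `ℓ^p(G, E)`. -/
def co (p : ℝ≥0∞) (ξ : ellp p G E) : G → E := WithLp.ofLp ξ

section

variable (p : ℝ≥0∞) [hp1 : Fact (1 ≤ p)]

omit hp1 [Group G] [Fintype G] [NormedAddCommGroup E] [NormedSpace ℂ E] in
lemma ellp_ext {ξ η : ellp p G E} (h : ∀ k, co p ξ k = co p η k) : ξ = η := by
  have : co p ξ = co p η := funext h
  exact WithLp.ofLp_injective p this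

omit [Group G] [NormedSpace ℂ E] in
lemma norm_ellp (hp : p ≠ ∞) (ξ : ellp p G E) :
    ‖ξ‖ = (∑ h, ‖co p ξ h‖ ^ p.toReal) ^ (1 / p.toReal) := by
  have h0 : 0 < p.toReal := ENNReal.toReal_pos (zero_lt_one.trans_le (Fact.out : 1 ≤ p)).ne' hp
  exact PiLp.norm_eq_sum h0 _

lemma regRep_bound (hp : p ≠ ∞) (α : IsomAction G A) (π : Rep A E) (a : A) (ξ : ellp p G E) :
    ‖(mk p fun h => π.op (α.map h⁻¹ a) (co p ξ h) : ellp p G E)‖ ≤ ‖a‖ * ‖ξ‖ := by
  have h0 : 0 < p.toReal := ENNReal.toReal_pos (zero_lt_one.trans_le (Fact.out : 1 ≤ p)).ne' hp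
  rw [norm_ellp p hp, norm_ellp p hp]
  have h1 : ∑ h, ‖co p (mk p fun h => π.op (α.map h⁻¹ a) (co p ξ h) : ellp p G E) h‖ ^ p.toReal ≤
      ‖a‖ ^ p.toReal * ∑ h, ‖co p ξ h‖ ^ p.toReal := by
    rw [Finset.mul_sum]
    refine Finset.sum_le_sum fun h _ => ?_
    rw [← Real.mul_rpow (norm_nonneg _) (norm_nonneg _)]
    refine Real.rpow_le_rpow (norm_nonneg _) ?_ h0.le
    refine (π.contractive _ _).trans ?_
    rw [α.norm_map]
  calc (∑ h, ‖co p (mk p fun h => π.op (α.map h⁻¹ a) (co p ξ h) : ellp p G E) h‖ ^ p.toReal)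
        ^ (1 / p.toReal)
      ≤ (‖a‖ ^ p.toReal * ∑ h, ‖co p ξ h‖ ^ p.toReal) ^ (1 / p.toReal) := by
        gcongr
    _ = ‖a‖ * (∑ h, ‖co p ξ h‖ ^ p.toReal) ^ (1 / p.toReal) := by
        rw [Real.mul_rpow (by positivity) (by positivity), ← Real.rpow_mul (norm_nonneg _),
          mul_one_div, div_self h0.ne', Real.rpow_one]

end

/-- The representation `(π(a)ξ)(h) = π₀(α_{h⁻¹}(a)) ξ(h)` on `ℓ^p(G, E)`. -/
noncomputable def regRep (p : ℝ≥0∞) [Fact (1 ≤ p)] (hp : p ≠ ∞) (α : IsomAction G A)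
    (π : Rep A E) : Rep A (ellp p G E) where
  op a ξ := mk p fun h => π.op (α.map h⁻¹ a) (co p ξ h)
  add_right a ξ η := ellp_ext p fun h => π.add_right _ _ _
  smul_right a c ξ := ellp_ext p fun h => π.smul_right _ _ _
  add_left a b ξ := ellp_ext p fun h => by
    change π.op (α.map h⁻¹ (a + b)) (co p ξ h) = _
    rw [α.map_add]
    exact π.add_left _ _ _
  smul_left c a ξ := ellp_ext p fun h => by
    change π.op (α.map h⁻¹ (c • a)) (co p ξ h) = _
    rw [α.map_smul]
    exact π.smul_left _ _ _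
  mul a b ξ := ellp_ext p fun h => by
    change π.op (α.map h⁻¹ (a * b)) (co p ξ h) = _
    rw [α.map_mult]
    exact π.mul _ _ _
  contractive := regRep_bound p hp α π

/-- The translations `(v_g ξ)(h) = ξ(g⁻¹h)` on `ℓ^p(G, E)`. -/
noncomputable def transl (p : ℝ≥0∞) [Fact (1 ≤ p)] (hp : p ≠ ∞) : IsomRep G (ellp p G E) where
  op g ξ := mk p fun h => co p ξ (g⁻¹ * h)
  add g ξ η := rfl
  smul g c ξ := rfl
  norm_op g ξ := by
    rw [norm_ellp p hp, norm_ellp p hp]
    congr 1
    exact Equiv.sum_comp (Equiv.mulLeft g⁻¹) fun h => ‖co p ξ h‖ ^ p.toReal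
  one ξ := ellp_ext p fun h => by
    change co p ξ (1⁻¹ * h) = co p ξ h
    rw [inv_one, one_mul]
  mul g k ξ := ellp_ext p fun h => by
    change co p ξ ((g * k)⁻¹ * h) = co p ξ (k⁻¹ * (g⁻¹ * h))
    rw [mul_inv_rev, mul_assoc]

/-- The regular covariant representation attached to the representation `π₀` on `E`; it acts on
`ℓ^p(G, E)` by `(π(a)ξ)(h) = π₀(α_{h⁻¹}(a)) ξ(h)` and `(v_g ξ)(h) = ξ(g⁻¹h)`. -/
noncomputable def regular (p : ℝ≥0∞) [Fact (1 ≤ p)] (hp : p ≠ ∞) (α : IsomAction G A)
    (π : Rep A E) : CovRep α (ellp p G E) where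
  rep := regRep p hp α π
  grp := transl p hp
  covariant g a ξ := ellp_ext p fun h => by
    change π.op (α.map (g⁻¹ * h)⁻¹ a) (co p ξ (g⁻¹ * h)) =
      π.op (α.map h⁻¹ (α.map g a)) (co p ξ (g⁻¹ * h))
    rw [← α.map_mul, mul_inv_rev, inv_inv]

/-- The complex space `L^p(X, μ)`. -/
def LpC (p : ℝ≥0∞) {X : Type u} [MeasurableSpace X] (μ : Measure X) : Type u := Lp ℂ p μ

noncomputable instance (p : ℝ≥0∞) [Fact (1 ≤ p)] {X : Type u} [MeasurableSpace X]
    (μ : Measure X) : NormedAddCommGroup (LpC p μ) :=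
  (Lp.instNormedAddCommGroup : NormedAddCommGroup (Lp ℂ p μ))

noncomputable instance (p : ℝ≥0∞) [Fact (1 ≤ p)] {X : Type u} [MeasurableSpace X]
    (μ : Measure X) : NormedSpace ℂ (LpC p μ) :=
  (Lp.instNormedSpace : NormedSpace ℂ (Lp ℂ p μ))

variable (p : ℝ≥0∞) [Fact (1 ≤ p)] (hp : p ≠ ∞) (α : IsomAction G A)

/-- The norms of the integrated forms of `a` in the nondegenerate contractive covariant
representations on the spaces `L^p(X, μ)` with `μ` σ-finite. -/
def fullSet (a : G → A) : Set ℝ :=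
  {c | ∃ (X : Type u) (_ : MeasurableSpace X) (μ : Measure X) (_ : SigmaFinite μ)
    (R : CovRep α (LpC p μ)), R.rep.Nondegenerate ∧ c = opNorm (R.integrated a)}

/-- The norms of the integrated forms of `a` in the regular covariant representations attached to
the nondegenerate contractive representations of `A` on the spaces `L^p(X, μ)` with `μ`
σ-finite. -/
def redSet (a : G → A) : Set ℝ :=
  {c | ∃ (X : Type u) (_ : MeasurableSpace X) (μ : Measure X) (_ : SigmaFinite μ)
    (π : Rep A (LpC p μ)), π.Nondegenerate ∧ c = opNorm ((regular p hp α π).integrated a)}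

/-- The norm of `F^p(G, A, α)` on `C(G, A, α)`. -/
noncomputable def fullNorm (a : G → A) : ℝ := sSup (fullSet p α a)

/-- The norm of `F^p_r(G, A, α)` on `C(G, A, α)`. -/
noncomputable def reducedNorm (a : G → A) : ℝ := sSup (redSet p hp α a)

end

end Pool.Agent.X304.Cp
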