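import Pool.Agent.X304.Cp.Defs

/-!
# `ℓ^p(G, L^p(X))` is an `L^p` space
-/

set_option autoImplicit false

open MeasureTheory
open scoped ENNReal

namespace Pool.Agent.X304.Cp

universe u

section

variable {G : Type u} [Fintype G] [MeasurableSpace G] [MeasurableSingletonClass G]
  {X : Type u} [MeasurableSpace X] (μ : Measure X)

/-- The product of the counting measure with `μ`. -/
noncomputable def nu (G : Type u) [MeasurableSpace G] {X : Type u} [MeasurableSpace X]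
    (μ : Measure X) : Measure (G × X) := Measure.sum fun h : G => μ.map (Prod.mk h)

instance [SigmaFinite μ] : SigmaFinite (nu G μ) := by
  have : ∀ h : G, SigmaFinite (μ.map (Prod.mk h)) := fun h =>
    (measurableEmbedding_prodMk_left h).sigmaFinite_map
  unfold nu
  infer_instance

lemma ae_nu {P : G × X → Prop} : (∀ᵐ y ∂(nu G μ), P y) ↔ ∀ h, ∀ᵐ x ∂μ, P (h, x) := by
  rw [nu, Measure.ae_sum_iff]
  exact forall_congr' fun h => (measurableEmbedding_prodMk_left h).ae_map_iff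

lemma aesm_nu {f : G × X → ℂ} :
    AEStronglyMeasurable f (nu G μ) ↔ ∀ h, AEStronglyMeasurable (fun x => f (h, x)) μ := by
  rw [nu, aestronglyMeasurable_sum_measure_iff]
  exact forall_congr' fun h => (measurableEmbedding_prodMk_left h).aestronglyMeasurable_map_iff

variable {p : ℝ≥0∞} [hp1 : Fact (1 ≤ p)] (hp : p ≠ ∞)

include hp1 hp in
lemma eLpNorm_nu (f : G × X → ℂ) :
    (eLpNorm f p (nu G μ)) ^ p.toReal = ∑ h, (eLpNorm (fun x => f (h, x)) p μ) ^ p.toReal := by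
  have hp0 : p ≠ 0 := (zero_lt_one.trans_le hp1.out).ne'
  have h0 : 0 < p.toReal := ENNReal.toReal_pos hp0 hp
  have h1 : ∀ {Z : Type u} [MeasurableSpace Z] (μ : Measure Z) (f : Z → ℂ),
      (eLpNorm f p μ) ^ p.toReal = ∫⁻ t, ‖f t‖ₑ ^ p.toReal ∂μ := by
    intro Z _ μ f
    rw [eLpNorm_eq_lintegral_rpow_enorm_toReal hp0 hp, ← ENNReal.rpow_mul, one_div,
      inv_mul_cancel₀ h0.ne', ENNReal.rpow_one]
  simp only [h1]
  rw [nu, lintegral_sum_measure, tsum_fintype]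
  exact Finset.sum_congr rfl fun h _ => (measurableEmbedding_prodMk_left h).lintegral_map _

include hp in
lemma memLp_nu {f : G × X → ℂ} : MemLp f p (nu G μ) ↔ ∀ h, MemLp (fun x => f (h, x)) p μ := by
  have hp0 : p ≠ 0 := (zero_lt_one.trans_le hp1.out).ne'
  have h0 : 0 < p.toReal := ENNReal.toReal_pos hp0 hp
  have h1 := eLpNorm_nu μ hp f
  constructor
  · rintro ⟨h2, h3⟩ h
    refine ⟨(aesm_nu μ).1 h2 h, ?_⟩
    rw [← ENNReal.rpow_lt_top_iff_of_pos h0] at h3 ⊢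
    rw [h1, ENNReal.sum_lt_top] at h3
    exact h3 h (Finset.mem_univ h)
  · intro h2
    refine ⟨(aesm_nu μ).2 fun h => (h2 h).1, ?_⟩
    rw [← ENNReal.rpow_lt_top_iff_of_pos h0, h1, ENNReal.sum_lt_top]
    intro h _
    exact (ENNReal.rpow_lt_top_iff_of_pos h0).2 (h2 h).2

include hp in
lemma mem_theta (ξ : PiLp p (fun _ : G => Lp ℂ p μ)) :
    MemLp (fun y : G × X => (ξ y.1 : X → ℂ) y.2) p (nu G μ) :=
  (memLp_nu μ hp (f := fun y => (ξ y.1 : X → ℂ) y.2)).2 fun h => Lp.memLp (ξ h)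

/-- The identification as a linear isometry. -/
noncomputable def thetaI : PiLp p (fun _ : G => Lp ℂ p μ) →ₗᵢ[ℂ] Lp ℂ p (nu G μ) where
  toFun ξ := (mem_theta μ hp ξ).toLp _
  map_add' ξ η := by
    rw [← MemLp.toLp_add]
    apply MemLp.toLp_congr
    refine (ae_nu μ).2 fun h => ?_
    exact Lp.coeFn_add (ξ h) (η h)
  map_smul' c ξ := by
    rw [RingHom.id_apply, ← MemLp.toLp_const_smul]
    apply MemLp.toLp_congr
    refine (ae_nu μ).2 fun h => ?_
    exact Lp.coeFn_smul c (ξ h)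
  norm_map' ξ := by
    have hp0 : p ≠ 0 := (zero_lt_one.trans_le hp1.out).ne'
    have h0 : 0 < p.toReal := ENNReal.toReal_pos hp0 hp
    change ‖(mem_theta μ hp ξ).toLp _‖ = ‖ξ‖
    rw [Lp.norm_toLp, PiLp.norm_eq_sum h0]
    have h1 := eLpNorm_nu μ hp fun y : G × X => (ξ y.1 : X → ℂ) y.2
    have h2 := congrArg ENNReal.toReal h1
    rw [← ENNReal.toReal_rpow, ENNReal.toReal_sum (fun j _ =>
      ENNReal.rpow_ne_top_of_nonneg h0.le (Lp.eLpNorm_ne_top (ξ j)))] at h2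
    simp only [← ENNReal.toReal_rpow] at h2
    have h3 : ∀ h, (eLpNorm (ξ h : X → ℂ) p μ).toReal = ‖ξ h‖ := fun h => (Lp.norm_def _).symm
    simp only [h3] at h2
    rw [← h2, ← Real.rpow_mul ENNReal.toReal_nonneg, mul_one_div, div_self h0.ne', Real.rpow_one]

lemma thetaI_coe (ξ : PiLp p (fun _ : G => Lp ℂ p μ)) :
    (thetaI μ hp ξ : G × X → ℂ) =ᵐ[nu G μ] fun y => (ξ y.1 : X → ℂ) y.2 :=
  (mem_theta μ hp ξ).coeFn_toLp

lemma thetaI_surj : Function.Surjective (thetaI (G := G) μ hp) := by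
  intro F
  have h1 := (memLp_nu μ hp).1 (Lp.memLp F)
  refine ⟨WithLp.toLp p fun h => (h1 h).toLp _, ?_⟩
  apply Lp.ext
  refine (thetaI_coe μ hp _).trans ?_
  refine (ae_nu μ).2 fun h => ?_
  exact (h1 h).coeFn_toLp

/-- The identification. -/
noncomputable def theta : PiLp p (fun _ : G => Lp ℂ p μ) ≃ₗᵢ[ℂ] Lp ℂ p (nu G μ) :=
  LinearIsometryEquiv.ofSurjective (thetaI μ hp) (thetaI_surj μ hp)

/-- The identification. -/
noncomputable def theta' : ellp p G (LpC p μ) ≃ₗᵢ[ℂ] LpC p (nu G μ) := theta μ hp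

end

end Pool.Agent.X304.Cp
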