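import Pool.Agent.X304.Cp.Iso

/-!
# The full and the reduced norms agree
-/

set_option autoImplicit false

open MeasureTheory
open scoped ENNReal

namespace Pool.Agent.X304.Cp

universe u v

section

variable {G : Type u} [Group G] [Fintype G] {A : Type v} [NonUnitalNormedRing A] [NormedSpace ℂ A]
  {E : Type u} [NormedAddCommGroup E] [NormedSpace ℂ E]
  {F : Type u} [NormedAddCommGroup F] [NormedSpace ℂ F] {α : IsomAction G A}

/-! ### operator norms -/

omit [NormedSpace ℂ E] in
lemma opNorm_le (T : E → E) (c : ℝ) (hc : 0 ≤ c) (h : ∀ x, ‖T x‖ ≤ c * ‖x‖) : opNorm T ≤ c :=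
  csInf_le ⟨0, fun _ h => h.1⟩ ⟨hc, h⟩

omit [NormedSpace ℂ E] in
lemma opNorm_nonneg (T : E → E) : 0 ≤ opNorm T := Real.sInf_nonneg fun _ h => h.1

omit [NormedSpace ℂ E] in
lemma le_opNorm (T : E → E) (c : ℝ) (hc : 0 ≤ c) (h : ∀ x, ‖T x‖ ≤ c * ‖x‖) (x : E) :
    ‖T x‖ ≤ opNorm T * ‖x‖ := by
  rcases eq_or_lt_of_le (norm_nonneg x) with h0 | h0
  · have := h x
    rw [← h0, mul_zero] at this ⊢
    exact this
  · rw [← div_le_iff₀ h0]
    refine le_csInf ⟨c, hc, h⟩ fun d hd => ?_
    rw [div_le_iff₀ h0]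
    exact hd.2 x

omit [NormedSpace ℂ E] [NormedSpace ℂ F] in
lemma opNorm_le_opNorm (T : E → E) (S : F → F) (c : ℝ) (hc : 0 ≤ c) (hS : ∀ x, ‖S x‖ ≤ c * ‖x‖)
    (h : ∀ d, (∀ x, ‖S x‖ ≤ d * ‖x‖) → ∀ x, ‖T x‖ ≤ d * ‖x‖) : opNorm T ≤ opNorm S :=
  opNorm_le T _ (opNorm_nonneg S) (h _ (le_opNorm S c hc hS))

lemma bound_integrated (R : CovRep α E) (a : G → A) (x : E) :
    ‖R.integrated a x‖ ≤ (∑ g, ‖a g‖) * ‖x‖ := by
  rw [CovRep.integrated, Finset.sum_mul]
  refine (norm_sum_le _ _).trans (Finset.sum_le_sum fun g _ => ?_)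
  refine (R.rep.contractive _ _).trans ?_
  rw [R.grp.norm_op]

omit [Group G] [NormedSpace ℂ A] in
lemma sum_norm_nonneg (a : G → A) : 0 ≤ ∑ g, ‖a g‖ := Finset.sum_nonneg fun _ _ => norm_nonneg _

lemma norm_integrated_le (R : CovRep α E) (a : G → A) :
    opNorm (R.integrated a) ≤ ∑ g, ‖a g‖ :=
  opNorm_le _ _ (sum_norm_nonneg a) (bound_integrated R a)

/-! ### transport -/

/-- Transport of a representation. -/
noncomputable def Rep.transport (Θ : E ≃ₗᵢ[ℂ] F) (π : Rep A E) : Rep A F where
  op a x := Θ (π.op a (Θ.symm x))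
  add_right a x y := by rw [map_add, π.add_right, map_add]
  smul_right a c x := by rw [map_smul, π.smul_right, map_smul]
  add_left a b x := by rw [π.add_left, map_add]
  smul_left c a x := by rw [π.smul_left, map_smul]
  mul a b x := by rw [π.mul, Θ.symm_apply_apply]
  contractive a x := by
    rw [LinearIsometryEquiv.norm_map]
    refine (π.contractive _ _).trans ?_
    rw [LinearIsometryEquiv.norm_map]

lemma Rep.transport_nondeg (Θ : E ≃ₗᵢ[ℂ] F) (π : Rep A E) (h : π.Nondegenerate) :
    (π.transport Θ).Nondegenerate := by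
  have h1 := Θ.surjective.denseRange.dense_image Θ.continuous h
  refine h1.mono ?_
  rintro _ ⟨y, hy, rfl⟩
  rw [SetLike.mem_coe] at hy ⊢
  induction hy using Submodule.span_induction with
  | mem y hy =>
    obtain ⟨a, x, rfl⟩ := hy
    refine Submodule.subset_span ⟨a, Θ x, ?_⟩
    change _ = Θ (π.op a (Θ.symm (Θ x)))
    rw [Θ.symm_apply_apply]
  | zero => rw [map_zero]; exact Submodule.zero_mem _
  | add y z _ _ h1 h2 => rw [map_add]; exact Submodule.add_mem _ h1 h2
  | smul c y _ h1 => rw [map_smul]; exact Submodule.smul_mem _ _ h1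

/-- Transport of a covariant representation. -/
noncomputable def CovRep.transport (Θ : E ≃ₗᵢ[ℂ] F) (R : CovRep α E) : CovRep α F where
  rep := R.rep.transport Θ
  grp :=
    { op := fun g x => Θ (R.grp.op g (Θ.symm x))
      add := fun g x y => by rw [map_add, R.grp.add, map_add]
      smul := fun g c x => by rw [map_smul, R.grp.smul, map_smul]
      norm_op := fun g x => by
        rw [LinearIsometryEquiv.norm_map, R.grp.norm_op, LinearIsometryEquiv.norm_map]
      one := fun x => by rw [R.grp.one, Θ.apply_symm_apply]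
      mul := fun g h x => by rw [R.grp.mul, Θ.symm_apply_apply] }
  covariant := fun g a x => by
    change Θ (R.grp.op g (Θ.symm (Θ (R.rep.op a (Θ.symm x))))) =
      Θ (R.rep.op (α.map g a) (Θ.symm (Θ (R.grp.op g (Θ.symm x)))))
    rw [Θ.symm_apply_apply, Θ.symm_apply_apply, R.covariant]

lemma CovRep.transport_integrated (Θ : E ≃ₗᵢ[ℂ] F) (R : CovRep α E) (a : G → A) (x : F) :
    (R.transport Θ).integrated a x = Θ (R.integrated a (Θ.symm x)) := by
  rw [CovRep.integrated, CovRep.integrated, map_sum]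
  refine Finset.sum_congr rfl fun g _ => ?_
  change Θ (R.rep.op (a g) (Θ.symm (Θ (R.grp.op g (Θ.symm x))))) = _
  rw [Θ.symm_apply_apply]

lemma CovRep.transport_norm (Θ : E ≃ₗᵢ[ℂ] F) (R : CovRep α E) (a : G → A) :
    opNorm ((R.transport Θ).integrated a) = opNorm (R.integrated a) := by
  apply le_antisymm
  · refine opNorm_le_opNorm _ _ _ (sum_norm_nonneg a) (bound_integrated R a) fun d hd x => ?_
    rw [R.transport_integrated, LinearIsometryEquiv.norm_map]
    refine (hd _).trans ?_
    rw [LinearIsometryEquiv.norm_map]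
  · refine opNorm_le_opNorm _ _ _ (sum_norm_nonneg a) (bound_integrated (R.transport Θ) a)
      fun d hd x => ?_
    have h := hd (Θ x)
    rwa [R.transport_integrated, LinearIsometryEquiv.norm_map, Θ.symm_apply_apply,
      LinearIsometryEquiv.norm_map] at h

/-! ### the regular representation -/

variable (p : ℝ≥0∞) [hp1 : Fact (1 ≤ p)] (hp : p ≠ ∞)

/-- The vector of `ℓ^p(G, E)` with a single coordinate. -/
noncomputable def sing [DecidableEq G] (k : G) (x : E) : ellp p G E := mk p (Pi.single k x)

/-- The regular representation attached to a nondegenerate one is nondegenerate. -/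
lemma regular_nondeg (α : IsomAction G A) (π : Rep A E) (h : π.Nondegenerate) :
    (regular p hp α π).rep.Nondegenerate := by
  classical
  set S := Submodule.span ℂ {y : ellp p G E |
    ∃ (a : A) (x : ellp p G E), y = (regular p hp α π).rep.op a x} with hS
  have h1 : ∀ (k : G) (x : E), sing p k x ∈ S.topologicalClosure := by
    intro k x
    have hc : Continuous fun x : E => (sing p k x : ellp p G E) := by
      have : Continuous fun x : E => (Pi.single k x : G → E) :=
        continuous_single (A := fun _ : G => E) k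
      exact (PiLp.continuous_toLp p _).comp this
    have h2 : x ∈ closure (Submodule.span ℂ {y : E | ∃ (a : A) (x : E), y = π.op a x} : Set E) :=
      h x
    have h3 := image_closure_subset_closure_image hc ⟨x, h2, rfl⟩
    refine closure_mono ?_ h3
    rintro _ ⟨y, hy, rfl⟩
    rw [SetLike.mem_coe] at hy
    change (sing p k y : ellp p G E) ∈ S
    induction hy using Submodule.span_induction with
    | mem y hy =>
      obtain ⟨a, z, rfl⟩ := hy
      refine Submodule.subset_span ⟨α.map k a, sing p k z, ?_⟩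
      refine ellp_ext p fun h => ?_
      change (Pi.single k (π.op a z) : G → E) h =
        π.op (α.map h⁻¹ (α.map k a)) ((Pi.single k z : G → E) h)
      by_cases hk : h = k
      · subst hk
        rw [Pi.single_eq_same, Pi.single_eq_same, ← α.map_mul, inv_mul_cancel, α.map_one]
      · rw [Pi.single_eq_of_ne hk, Pi.single_eq_of_ne hk]
        have := π.smul_right (α.map h⁻¹ (α.map k a)) 0 0
        rw [zero_smul, zero_smul] at this
        exact this.symm
    | zero =>
      have : (sing p k (0 : E) : ellp p G E) = 0 := by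
        refine ellp_ext p fun h => ?_
        change (Pi.single k (0 : E) : G → E) h = 0
        rw [Pi.single_zero, Pi.zero_apply]
      rw [this]
      exact Submodule.zero_mem _
    | add y z _ _ h1 h2 =>
      have : (sing p k (y + z) : ellp p G E) = sing p k y + sing p k z := by
        refine ellp_ext p fun h => ?_
        change (Pi.single k (y + z) : G → E) h = (Pi.single k y : G → E) h +
          (Pi.single k z : G → E) h
        rw [Pi.single_add, Pi.add_apply]
      rw [this]
      exact Submodule.add_mem _ h1 h2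
    | smul c y _ h1 =>
      have : (sing p k (c • y) : ellp p G E) = c • sing p k y := by
        refine ellp_ext p fun h => ?_
        change (Pi.single k (c • y) : G → E) h = c • (Pi.single k y : G → E) h
        by_cases hk : h = k
        · subst hk
          simp
        · simp [Pi.single_eq_of_ne hk]
      rw [this]
      exact Submodule.smul_mem _ _ h1
  intro ξ
  have h2 : ξ = ∑ k, sing p k (co p ξ k) := by
    have h3 : ∑ k, (sing p k (co p ξ k) : ellp p G E) =
        mk p (∑ k, (Pi.single k (co p ξ k) : G → E)) := (WithLp.toLp_sum p _ _ _).symm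
    rw [h3, Finset.univ_sum_single]
    rfl
  rw [h2]
  exact S.topologicalClosure.sum_mem fun k _ => h1 k (co p ξ k)

/-- The vector `h ↦ v_h⁻¹ x`. -/
noncomputable def orb (R : CovRep α E) (x : E) : ellp p G E :=
  mk p fun h => R.grp.op h⁻¹ x

include hp1 hp in
lemma norm_orb (R : CovRep α E) (x : E) :
    ‖orb p R x‖ = (Fintype.card G : ℝ) ^ (1 / p.toReal) * ‖x‖ := by
  have h0 : 0 < p.toReal := ENNReal.toReal_pos (zero_lt_one.trans_le hp1.out).ne' hp
  rw [norm_ellp p hp]
  have h1 : ∀ h, ‖co p (orb p R x) h‖ = ‖x‖ := fun h => R.grp.norm_op _ _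
  simp only [h1]
  rw [Finset.sum_const, Finset.card_univ, nsmul_eq_mul, Real.mul_rpow (by positivity)
    (by positivity), ← Real.rpow_mul (norm_nonneg _), mul_one_div, div_self h0.ne', Real.rpow_one]

lemma regular_orb (R : CovRep α E) (a : G → A) (x : E) :
    (regular p hp α R.rep).integrated a (orb p R x) = orb p R (R.integrated a x) := by
  rw [CovRep.integrated, CovRep.integrated]
  have h3 : ∑ g, (regular p hp α R.rep).rep.op (a g) ((regular p hp α R.rep).grp.op g
      (orb p R x)) = mk p (∑ g, fun h => R.rep.op (α.map h⁻¹ (a g)) (R.grp.op (g⁻¹ * h)⁻¹ x)) :=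
    (WithLp.toLp_sum p _ _ _).symm
  rw [h3]
  refine ellp_ext p fun h => ?_
  change (∑ g, fun h => R.rep.op (α.map h⁻¹ (a g)) (R.grp.op (g⁻¹ * h)⁻¹ x)) h =
    R.grp.op h⁻¹ (∑ g, R.rep.op (a g) (R.grp.op g x))
  have h4 : R.grp.op h⁻¹ (∑ g, R.rep.op (a g) (R.grp.op g x)) =
      ∑ g, R.grp.op h⁻¹ (R.rep.op (a g) (R.grp.op g x)) :=
    map_sum (AddMonoidHom.mk' (R.grp.op h⁻¹) (R.grp.add h⁻¹)) _ _
  rw [h4, Finset.sum_apply]
  refine Finset.sum_congr rfl fun g _ => ?_
  rw [R.covariant, mul_inv_rev, inv_inv, R.grp.mul]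

/-- The norm of the integrated form is at most that of the regular one. -/
lemma norm_le_regular (R : CovRep α E) (a : G → A) :
    opNorm (R.integrated a) ≤ opNorm ((regular p hp α R.rep).integrated a) := by
  refine opNorm_le_opNorm _ _ _ (sum_norm_nonneg a)
    (bound_integrated (regular p hp α R.rep) a) fun d hd x => ?_
  have hG : (0 : ℝ) < (Fintype.card G : ℝ) ^ (1 / p.toReal) := by
    have : 0 < Fintype.card G := Fintype.card_pos
    positivity
  have h1 := hd (orb p R x)
  rw [regular_orb, norm_orb p hp, norm_orb p hp] at h1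
  rw [← mul_le_mul_iff_right₀ hG]
  linarith

/-- The full and the reduced norms agree. -/
theorem full_eq_reduced (α : IsomAction G A) (a : G → A) :
    fullNorm p α a = reducedNorm p hp α a := by
  apply le_antisymm
  · refine Real.sSup_le ?_ (Real.sSup_nonneg ?_)
    · rintro c ⟨X, m, μ, hμ, R, hR, rfl⟩
      refine le_csSup_of_le ⟨∑ g, ‖a g‖, ?_⟩ ⟨X, m, μ, hμ, R.rep, hR, rfl⟩
        (norm_le_regular p hp R a)
      rintro _ ⟨X, m, μ, hμ, π, hπ, rfl⟩
      exact norm_integrated_le _ _
    · rintro _ ⟨X, m, μ, hμ, π, hπ, rfl⟩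
      exact opNorm_nonneg _
  · refine Real.sSup_le ?_ (Real.sSup_nonneg ?_)
    · rintro c ⟨X, m, μ, hμ, π, hπ, rfl⟩
      let _ : MeasurableSpace G := ⊤
      refine le_csSup ⟨∑ g, ‖a g‖, ?_⟩ ⟨G × X, inferInstance, nu G μ, inferInstance,
        (regular p hp α π).transport (theta' μ hp), ?_, ?_⟩
      · rintro _ ⟨X, m, μ, hμ, R, hR, rfl⟩
        exact norm_integrated_le _ _
      · exact Rep.transport_nondeg _ _ (regular_nondeg p hp α π hπ)
      · exact (CovRep.transport_norm _ _ _).symm
    · rintro _ ⟨X, m, μ, hμ, R, hR, rfl⟩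
      exact opNorm_nonneg _

end

end Pool.Agent.X304.Cp
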